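import Pool.Agent.Run7.h309.JU.KumU
import Pool.Agent.Run7.h309.JP.KumAll

/-!
# Joint hypergeometric families of all types at all points `z = 1 - v ^ M`, `v` in a number field
-/

set_option autoImplicit false
set_option linter.unusedSectionVars false
set_option linter.unusedVariables false

open Filter Topology Matrix NumberField

namespace Run7.h309.JP

open Pool.Agent.Y119.HY (Am Jm cm E Hf Hc Yf)
open Pool.Agent.Run7.h225.HG
open Run7.h893.HO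
open Pool.Agent.Y890.MV
open Pool.Agent.Y124 (Cov)

variable {k : ℕ} {r : Fin k → ℕ} {n : ∀ i, Fin (r i) → ℕ} {Q : ∀ i, Fin (r i) → Polynomial ℚ}
  {W : ∀ i j, Matrix (Fin (n i j)) (Fin (n i j)) (PowerSeries ℚ)} {M : Fin k → ℕ}

section

variable (Ω : ∀ i j, Matrix (Fin (n i j)) (Fin (n i j)) ℂ)

/-- the torsor -/
def SkU (Q : ∀ i, Fin (r i) → Polynomial ℚ) (M : Fin k → ℕ) : ((Σ _ : Fin k, Unit) → ℂ) → Set (Va n → ℂ) :=
  TSig (X' := fun _ : Fin k => Unit) fun i => GnU (n i) (Q i) (M i) (Ω i)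

lemma mem_SkU {x : (Σ _ : Fin k, Unit) → ℂ} {Y : Va n → ℂ} : Y ∈ SkU Ω Q M x ↔
    ∃ (l : Fin k → ℂ) (X : ∀ i j, Matrix (Fin (n i j)) (Fin (n i j)) ℂ),
      (∀ i j, X i j ∈ TU (n i j) (Q i j) (M i * Complex.log (x ⟨i, ()⟩)) (1 - x ⟨i, ()⟩ ^ M i)) ∧ Y = pa l fun i j => X i j * Ω i j := by
  constructor
  · intro h
    choose l X hX hY using h
    refine ⟨l, X, hX, ?_⟩
    funext ⟨i, v⟩
    exact congrFun (hY i) v
  · rintro ⟨l, X, hX, rfl⟩ i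
    exact ⟨l i, X i, hX i, rfl⟩

theorem torM_SkU (hJ : ∀ i, JU (n i) (Q i) (W i)) (hM : ∀ i, AM (n i) (Q i) (M i)) :
    TorM (Vk M) (gk Ω Q M) (SkU Ω Q M) :=
  TorM.sig fun i => torM_kumU (Ω i) (hJ i) (hM i)

/-- the exceptional points -/
def ExcU (Q : ∀ i, Fin (r i) → Polynomial ℚ) (M : Fin k → ℕ) (w : ℕ) (K : Type) [Field K] [NumberField K] (io : K →+* ℂ)
    (ξ : Fin w → ℂ) (T : ℝ) : Set (Fin k → K) :=
  {s | (∀ i, Pool.Agent.Y120.HtLe K T (s i)) ∧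
    (∀ i, Reg w (1 - io (s i) ^ M i) ∧ |(io (s i)).arg| < Real.pi / M i) ∧ ∃ P ∈ RelSet n w K io ξ T,
    MvPolynomial.eval (pa (fun i => Complex.log (1 - io (s i) ^ M i))
      fun i j => Yf (cm (Am (n i j))) (Hc (n i j) (Q i j)) (1 - io (s i) ^ M i) * Ω i j) P = 0 ∧
    ∃ (l : Fin k → ℂ) (X : ∀ i j, Matrix (Fin (n i j)) (Fin (n i j)) ℂ),
      (∀ i j, X i j ∈ TU (n i j) (Q i j) (M i * Complex.log (io (s i))) (1 - io (s i) ^ M i)) ∧
      MvPolynomial.eval (pa l fun i j => X i j * Ω i j) P ≠ 0}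

set_option maxHeartbeats 4000000 in
/-- **All points of number fields.** -/
theorem all_points_U (hk : 1 ≤ k) (hJ : ∀ i, JU (n i) (Q i) (W i)) (hM : ∀ i, AM (n i) (Q i) (M i)) :
    ∃ (ω : ℝ → ℕ) (T₀ : ℝ), Tendsto ω atTop atTop ∧ Monotone ω ∧ ∀ T, T₀ ≤ T → 0 < ω T ∧
      ∀ (K : Type) [Field K] [NumberField K], Module.finrank ℚ K ≤ ω T → ∀ (io : K →+* ℂ) (ξ : Fin (ω T) → ℂ),
        Cov ⌊T ^ ((ω T : ℝ)⁻¹)⌋₊ ⌊T ^ ((ω T : ℝ)⁻¹)⌋₊ ((fun (s : Fin k → K) j => io (s j)) '' ExcU Ω Q M (ω T) K io ξ T) ∧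
        (ExcU Ω Q M (ω T) K io ξ T).Finite ∧
        ((ExcU Ω Q M (ω T) K io ξ T).ncard : ℝ) ≤
          T ^ ((ω T : ℝ)⁻¹) * ({x : K | Pool.Agent.Y120.HtLe K T x}.ncard : ℝ) ^ (k - 1) := by
  classical
  have hM0 : ∀ i, 0 < M i := fun i => (hM i).pos
  have : Nonempty (Fin k) := ⟨⟨0, hk⟩⟩
  have : Nonempty (Σ _ : Fin k, Unit) := ⟨⟨⟨0, hk⟩, ()⟩⟩
  have hmain := omega_gen (X := Fin k) (fun w => Fin w → ℂ) (fun w K _ _ io ξ T => ExcU Ω Q M w K io ξ T)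
    (fun w K _ _ io ξ T s hs => hs.1) ?_
  · simpa only [Fintype.card_fin] using hmain
  intro w ε hε
  rcases Nat.eq_zero_or_pos w with hw | hw
  · refine ⟨0, 0, 2, le_rfl, le_rfl, ?_⟩
    intro K _ _ hK
    have h1 : 0 < Module.finrank ℚ K := Module.finrank_pos
    omega
  have hf : ∀ q, AnalyticOnNhd ℂ (gk Ω Q M q) (Vk M) :=
    fun q => fSig_an (X' := fun _ : Fin k => Unit) (fun i v => gn_anU (M := M i) (Ω i) (hJ i) v) q
  obtain ⟨D, C, T₀, hC, hT₀, H⟩ := excT_cov (Vk_pre hM0) Vk_open (Vk_ne hM0) hf (torM_SkU Ω hJ hM) (Lk M w)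
    (Lk_compact hw) (Lk_sub hM0 hw) w (Fin w) w (w : ℝ) ε hε
  refine ⟨D, C, T₀, hC, hT₀, fun K _ _ hK io ξ T hT0 => ?_⟩
  refine cov_reindex (fun q : (Σ _ : Fin k, Unit) => q.1) (fun p q h => Sigma.ext h HEq.rfl) (H K hK io ξ T hT0) ?_
  rintro _ ⟨s, ⟨hs1, hs2, P, ⟨hP1, hP2⟩, hP3, l, X, hX, hP4⟩, rfl⟩
  have hne : ∀ i, io (s i) ≠ 0 := by
    intro i h0
    have h1 := (hs2 i).1.1
    rw [h0, zero_pow (hM0 i).ne', sub_zero, norm_one] at h1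
    have : (0 : ℝ) < 1 / w := by positivity
    linarith
  refine ⟨fun q => s q.1, ⟨fun q => hs1 q.1, mem_Lk hM0 (fun q => hs2 q.1) fun q => hne q.1, ?_⟩, rfl⟩
  choose c hc hcP using hP2
  have hev : ∀ Y : Va n → ℂ, ∑ l : Va n → Fin (w + 1), (∑ a, ξ a * io (c (Finsupp.equivFunOnFinite.symm
      fun v => (l v : ℕ)) a : K)) * ∏ v, Y v ^ (l v : ℕ) = MvPolynomial.eval Y P := by
    intro Y
    rw [eval_box P w hP1 Y]
    refine Finset.sum_congr rfl fun l _ => ?_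
    rw [hcP]
  refine ⟨fun l a => c (Finsupp.equivFunOnFinite.symm fun v => (l v : ℕ)) a, fun l a φ => ?_, ?_, fun hcon => hP4 ?_⟩
  · rw [Real.rpow_natCast]
    exact hc _ a φ
  · exact (hev _).trans hP3
  · have h2 := hcon _ ((mem_SkU Ω (Q := Q) (M := M) (x := fun q => io (s q.1))).2 ⟨l, X, hX, rfl⟩)
    exact (hev _).symm.trans h2

/-- **Functional relations.** -/
theorem all_functions_U (hJ : ∀ i, JU (n i) (Q i) (W i)) (hM : ∀ i, AM (n i) (Q i) (M i))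
    (P : MvPolynomial (Va n ⊕ Fin k) ℂ)
    (hP : ∀ v : Fin k → ℂ, (∀ i, v i ∈ VM (M i)) → MvPolynomial.eval (Sum.elim (pa (fun i => Complex.log (1 - v i ^ M i))
      fun i j => Yf (cm (Am (n i j))) (Hc (n i j) (Q i j)) (1 - v i ^ M i) * Ω i j) v) P = 0)
    (v l : Fin k → ℂ) (hv : ∀ i, v i ∈ VM (M i)) (X : ∀ i j, Matrix (Fin (n i j)) (Fin (n i j)) ℂ)
    (hX : ∀ i j, X i j ∈ TU (n i j) (Q i j) (M i * Complex.log (v i)) (1 - v i ^ M i)) :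
    MvPolynomial.eval (Sum.elim (pa l fun i j => X i j * Ω i j) v) P = 0 := by
  set ρ : Fin k → (Σ _ : Fin k, Unit) := fun i => ⟨i, ()⟩ with hρ
  set P' : MvPolynomial (Va n ⊕ (Σ _ : Fin k, Unit)) ℂ := MvPolynomial.rename (Sum.map id ρ) P with hP'
  have hev : ∀ (x : (Σ _ : Fin k, Unit) → ℂ) (Y : Va n → ℂ), evX x Y (iter _ _ P') =
      MvPolynomial.eval (Sum.elim Y fun i => x (ρ i)) P := by
    intro x Y
    rw [evX_iter, hP', MvPolynomial.eval_rename]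
    congr 1
    congr 1
    funext v
    rcases v with v | v <;> rfl
  have h1 := (torM_SkU Ω hJ hM).inv (iter _ _ P') (fun x hx => by
    rw [evM_eq, hev]
    exact hP (fun i => x (ρ i)) fun i => hx i) (fun q => v q.1) (fun i => hv i) _
    ((mem_SkU Ω (Q := Q) (M := M) (x := fun q => v q.1)).2 ⟨l, X, hX, rfl⟩)
  rw [hev] at h1
  exact h1

end

end Run7.h309.JP
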