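import Pool.Agent.Run7.h225.HG.JC
import Pool.Agent.Run7.h309.JP.GJ

/-!
# The groups and torsors of the hypergeometric families at complex points, all types

Adapted from `Pool/Agent/Run7/h594/HG/TGU.lean` (helper594), with lighter imports.
-/

set_option autoImplicit false

open PowerSeries Matrix
open Pool.Agent.Y113 hiding Bm
open Pool.Agent.Y119.HZ
open Pool.Agent.Y119.HY (Am Jm Bm cm E Hf Hc Yf Gal Sol QD Ac_nil E_isom E_mul_neg map_mul_eval map_C_eval real_mem_Lens)
open Run7.h893.HO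
open Pool.Agent.Run7.h225.HG

namespace Run7.h309.JP

section one

variable {n : ℕ} {Q : Polynomial ℚ}

/-- the group of one family -/
def GU (n : ℕ) (Q : Polynomial ℚ) (g : Matrix (Fin n) (Fin n) ℂ) : Prop :=
  g.det = 1 ∧ (QD n Q → g.transpose * cm (Jm n Q) * g = cm (Jm n Q)) ∧
    (QO n Q → g.transpose * cm (J0m n) * g = cm (J0m n))

lemma GU_mul {g h : Matrix (Fin n) (Fin n) ℂ} (hg : GU n Q g) (hh : GU n Q h) : GU n Q (g * h) :=
  ⟨by rw [Matrix.det_mul, hg.1, hh.1, one_mul], fun hQ => isom_mul (hg.2.1 hQ) (hh.2.1 hQ),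
    fun hQ => isom_mul (hg.2.2 hQ) (hh.2.2 hQ)⟩

/-- the holomorphic part preserves the orthogonal form -/
theorem form_o (hQ : QO n Q) {z : ℂ} (hz : ‖z‖ < 1) :
    (Hf (Hc n Q) z).transpose * Bz (cm (J0m n)) (cm (J1m n Q)) z * Hf (Hc n Q) z = cm (J0m n) := by
  ext a b
  have h1 := zero_of_real (f := fun z => ((Hf (Hc n Q) z).transpose *
    Bz (cm (J0m n)) (cm (J1m n Q)) z * Hf (Hc n Q) z) a b - cm (J0m n) a b) (z := z) ?_ ?_ hz
  · exact sub_eq_zero.1 h1
  · have han : ∀ i j, AnalyticOnNhd ℂ (fun z => Hf (Hc n Q) z i j) (Metric.ball 0 1) := fun i j =>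
      Pool.Agent.Y119.HY.Hf_an (sol_c_g hQ.toQG) Ac_nil i j
    simp only [Matrix.mul_apply, Matrix.transpose_apply]
    intro w hw
    refine AnalyticAt.sub (Finset.analyticAt_fun_sum _ fun c _ => AnalyticAt.mul
      (Finset.analyticAt_fun_sum _ fun d _ => (han d a w hw).mul ?_) (han c b w hw)) analyticAt_const
    unfold Bz
    simp only [Matrix.sub_apply, Matrix.smul_apply, smul_eq_mul]
    exact analyticAt_const.sub (analyticAt_id.mul analyticAt_const)
  · intro x hx hx1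
    have hN : cm (Am n) ^ n = 0 := Ac_nil
    have hC := comp_q hQ
    have h2 := self_pair' hC (sol_c_g hQ.toQG) (real_mem_Lens hx hx1)
    have h3 : Hf (Hc n Q) (x : ℂ) = Yf (cm (Am n)) (Hc n Q) (x : ℂ) * E (cm (Am n)) (-Complex.log (x : ℂ)) := by
      unfold Yf
      rw [Matrix.mul_assoc, E_mul_neg hN, mul_one]
    have h4 : (Hf (Hc n Q) (x : ℂ)).transpose * Bz (cm (J0m n)) (cm (J1m n Q)) x * Hf (Hc n Q) (x : ℂ) = cm (J0m n) := by
      have h5 := E_isom hN hC.zero (-Complex.log (x : ℂ))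
      rw [h3, Matrix.transpose_mul]
      calc (E (cm (Am n)) (-Complex.log (x : ℂ))).transpose * (Yf (cm (Am n)) (Hc n Q) (x : ℂ)).transpose *
            Bz (cm (J0m n)) (cm (J1m n Q)) x * (Yf (cm (Am n)) (Hc n Q) (x : ℂ) * E (cm (Am n)) (-Complex.log (x : ℂ))) =
          (E (cm (Am n)) (-Complex.log (x : ℂ))).transpose * ((Yf (cm (Am n)) (Hc n Q) (x : ℂ)).transpose *
            Bz (cm (J0m n)) (cm (J1m n Q)) x * Yf (cm (Am n)) (Hc n Q) (x : ℂ)) * E (cm (Am n)) (-Complex.log (x : ℂ)) := by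
            simp only [Matrix.mul_assoc]
        _ = _ := by rw [h2, h5]
    show _ - _ = (0 : ℂ)
    rw [h4, sub_self]

lemma Hf_memU (hQ : QG n Q) {z : ℂ} (hz : ‖z‖ < 1) : Hf (Hc n Q) z ∈ TU n Q (Complex.log (1 - z)) z :=
  ⟨det_Hf hQ hz, fun hQD => form_c hQD hz, fun hO => form_o hO hz⟩

lemma E_GU (hQ : QG n Q) (c : ℂ) : GU n Q (E (cm (Am n)) c) :=
  ⟨det_E c hQ, fun _ => E_isom Ac_nil Pool.Agent.Y119.HY.Jc_rel c, fun hO => E_isom Ac_nil (comp_q hO).zero c⟩

lemma TU_mul {l z : ℂ} {X g : Matrix (Fin n) (Fin n) ℂ} (hX : X ∈ TU n Q l z) (hg : GU n Q g) : X * g ∈ TU n Q l z := by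
  refine ⟨by rw [Matrix.det_mul, hX.1, hg.1, mul_one], fun hQD => isom_mul (hX.2.1 hQD) (hg.2.1 hQD), fun hO => ?_⟩
  have h1 := hX.2.2 hO
  have h2 := hg.2.2 hO
  calc (X * g).transpose * Bz (cm (J0m n)) (cm (J1m n Q)) z * (X * g) =
        g.transpose * (X.transpose * Bz (cm (J0m n)) (cm (J1m n Q)) z * X) * g := by
        rw [Matrix.transpose_mul]
        simp only [Matrix.mul_assoc]
    _ = _ := by rw [h1, h2]

/-- two elements of the torsor differ by an element of the group -/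
lemma TU_div {l z : ℂ} {X Y : Matrix (Fin n) (Fin n) ℂ} (hX : X ∈ TU n Q l z) (hY : Y ∈ TU n Q l z) :
    ∃ g, GU n Q g ∧ X * g = Y := by
  have hu : IsUnit X.det := by
    rw [hX.1]
    exact Ne.isUnit (Complex.exp_ne_zero _)
  refine ⟨X⁻¹ * Y, ⟨?_, fun hQD => ?_, fun hO => ?_⟩, ?_⟩
  · rw [Matrix.det_mul, Matrix.det_nonsing_inv, Ring.inverse_eq_inv', hX.1, hY.1,
      inv_mul_cancel₀ (Complex.exp_ne_zero _)]
  · refine isom_mul ?_ (hY.2.1 hQD)
    have h1 := hX.2.1 hQD
    calc (X⁻¹).transpose * cm (Jm n Q) * X⁻¹ =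
          (X⁻¹).transpose * (X.transpose * cm (Jm n Q) * X) * X⁻¹ := by rw [h1]
      _ = (X * X⁻¹).transpose * cm (Jm n Q) * (X * X⁻¹) := by
        rw [Matrix.transpose_mul]
        simp only [Matrix.mul_assoc]
      _ = _ := by rw [Matrix.mul_nonsing_inv _ hu, Matrix.transpose_one, one_mul, mul_one]
  · have h1 := hX.2.2 hO
    have h2 := hY.2.2 hO
    calc (X⁻¹ * Y).transpose * cm (J0m n) * (X⁻¹ * Y) =
          (X⁻¹ * Y).transpose * (X.transpose * Bz (cm (J0m n)) (cm (J1m n Q)) z * X) * (X⁻¹ * Y) := by rw [h1]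
      _ = (X * X⁻¹ * Y).transpose * Bz (cm (J0m n)) (cm (J1m n Q)) z * (X * X⁻¹ * Y) := by
        simp only [Matrix.transpose_mul, Matrix.mul_assoc]
      _ = _ := by rw [Matrix.mul_nonsing_inv _ hu, one_mul, h2]
  · rw [← Matrix.mul_assoc, Matrix.mul_nonsing_inv _ hu, one_mul]

/-- elements connected with `1` -/
def PqU (n : ℕ) (Q : Polynomial ℚ) (g : Matrix (Fin n) (Fin n) ℂ) : Prop :=
  ∃ M : Matrix (Fin n) (Fin n) (Polynomial ℂ), M.map (Polynomial.eval 0) = 1 ∧ M.map (Polynomial.eval 1) = g ∧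
    ∀ c, GU n Q (M.map (Polynomial.eval c))

/-- a polynomial curve of isometries of a nondegenerate form through `1` has determinant `1` -/
lemma det_curve {J : Matrix (Fin n) (Fin n) ℂ} (hJ : J.det ≠ 0) {M : Matrix (Fin n) (Fin n) (Polynomial ℂ)}
    (h1 : M.map (Polynomial.eval 0) = 1)
    (h3 : ∀ c, (M.map (Polynomial.eval c)).transpose * J * M.map (Polynomial.eval c) = J) (c : ℂ) :
    (M.map (Polynomial.eval c)).det = 1 := by
  have he : ∀ c : ℂ, (M.map (Polynomial.eval c)).det = Polynomial.eval c M.det := by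
    intro c
    have := RingHom.map_det (Polynomial.evalRingHom c) M
    rw [Polynomial.coe_evalRingHom] at this
    exact this.symm
  have hsq : M.det * M.det = 1 := by
    refine Polynomial.funext fun c => ?_
    rw [Polynomial.eval_mul, ← he, Polynomial.eval_one]
    have h4 := congrArg Matrix.det (h3 c)
    rw [Matrix.det_mul, Matrix.det_mul, Matrix.det_transpose] at h4
    have h6 : ((M.map (Polynomial.eval c)).det * (M.map (Polynomial.eval c)).det - 1) * J.det = 0 := by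
      linear_combination h4
    exact sub_eq_zero.1 ((mul_eq_zero.1 h6).resolve_right hJ)
  have hun : IsUnit M.det := IsUnit.of_mul_eq_one _ hsq
  obtain ⟨a, -, ha⟩ := Polynomial.isUnit_iff.1 hun
  have h0 := he 0
  rw [h1, Matrix.det_one, ← ha, Polynomial.eval_C] at h0
  rw [he, ← ha, Polynomial.eval_C, ← h0]

/-- the exponential of an element with `X³ = 0` is an isometry -/
lemma exp_isom {J X : Matrix (Fin n) (Fin n) ℂ} (hX : X.transpose * J + J * X = 0) (h3 : X * X * X = 0) (t : ℂ) :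
    (1 + t • X + (t ^ 2 / 2) • (X * X)).transpose * J * (1 + t • X + (t ^ 2 / 2) • (X * X)) = J := by
  have e1 : X.transpose * J = -(J * X) := eq_neg_of_add_eq_zero_left hX
  have e2 : (X * X).transpose * J = J * (X * X) := by
    rw [Matrix.transpose_mul, Matrix.mul_assoc, e1, mul_neg, ← Matrix.mul_assoc, e1, neg_mul, neg_neg, Matrix.mul_assoc]
  have e3 : (1 + t • X + (t ^ 2 / 2) • (X * X)).transpose * J = J * (1 - t • X + (t ^ 2 / 2) • (X * X)) := by
    rw [transpose_add, transpose_add, transpose_one, transpose_smul, transpose_smul, add_mul, add_mul, one_mul,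
      smul_mul_assoc, smul_mul_assoc, e1, e2, mul_add, mul_sub, mul_one, mul_smul_comm, mul_smul_comm, smul_neg,
      sub_eq_add_neg]
  have e4 : X * X * (X * X) = 0 := by
    rw [← Matrix.mul_assoc, h3, zero_mul]
  have e5 : X * (X * X) = 0 := by
    rw [← Matrix.mul_assoc, h3]
  have e6 : (1 - t • X + (t ^ 2 / 2) • (X * X)) * (1 + t • X + (t ^ 2 / 2) • (X * X)) = 1 := by
    simp only [add_mul, sub_mul, mul_add, one_mul, mul_one, smul_mul_assoc, mul_smul_comm, e4, e5, h3, smul_zero]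
    ext i j
    simp only [Matrix.add_apply, Matrix.sub_apply, Matrix.smul_apply, smul_eq_mul, Matrix.zero_apply]
    ring
  rw [e3, Matrix.mul_assoc, e6, mul_one]

/-- the special orthogonal group is connected -/
lemma so_conn (hSOG : S_SOG) {J : Matrix (Fin n) (Fin n) ℂ} (hn : 3 ≤ n) (hs : J.transpose = J) (hJ : J.det ≠ 0)
    (g : Matrix (Fin n) (Fin n) ℂ) (hg : g.transpose * J * g = J) (hd : g.det = 1) :
    ∃ M : Matrix (Fin n) (Fin n) (Polynomial ℂ), M.map (Polynomial.eval 0) = 1 ∧ M.map (Polynomial.eval 1) = g ∧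
      ∀ c, (M.map (Polynomial.eval c)).transpose * J * M.map (Polynomial.eval c) = J := by
  set S : Submonoid (Matrix (Fin n) (Fin n) ℂ) :=
    { carrier := {g | ∃ M : Matrix (Fin n) (Fin n) (Polynomial ℂ), M.map (Polynomial.eval 0) = 1 ∧
        M.map (Polynomial.eval 1) = g ∧ ∀ c, (M.map (Polynomial.eval c)).transpose * J * M.map (Polynomial.eval c) = J}
      mul_mem' := by
        rintro a b ⟨M, h1, h2, h3⟩ ⟨N, k1, k2, k3⟩
        refine ⟨M * N, ?_, ?_, fun c => ?_⟩
        · rw [map_mul_eval, h1, k1, one_mul]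
        · rw [map_mul_eval, h2, k2]
        · rw [map_mul_eval]
          exact isom_mul (h3 c) (k3 c)
      one_mem' := ⟨1, Pool.Agent.Y118.CM.map_one' 0, Pool.Agent.Y118.CM.map_one' 1, fun c => by
        rw [Pool.Agent.Y118.CM.map_one', Matrix.transpose_one, one_mul, mul_one]⟩ } with hS
  refine hSOG n J hn hs hJ S (fun X hX hX3 t => ?_) g hg hd
  have hXJ : X.transpose * J + J * X = 0 := mem_som.1 hX
  have hMe : ∀ c : ℂ, (1 + (Polynomial.C t * Polynomial.X : Polynomial ℂ) • X.map Polynomial.C +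
      (Polynomial.C (t ^ 2 / 2) * Polynomial.X ^ 2 : Polynomial ℂ) • (X * X).map Polynomial.C :
        Matrix (Fin n) (Fin n) (Polynomial ℂ)).map (Polynomial.eval c) =
      1 + (c * t) • X + ((c * t) ^ 2 / 2) • (X * X) := by
    intro c
    ext l k
    simp only [Matrix.map_apply, Matrix.add_apply, Matrix.smul_apply, smul_eq_mul,
      Polynomial.eval_add, Polynomial.eval_mul, Polynomial.eval_X, Polynomial.eval_C, Polynomial.eval_pow]
    congr 1
    · congr 1
      · rw [Matrix.one_apply, Matrix.one_apply]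
        split_ifs <;> simp
      · ring
    · ring
  refine ⟨1 + (Polynomial.C t * Polynomial.X : Polynomial ℂ) • X.map Polynomial.C +
      (Polynomial.C (t ^ 2 / 2) * Polynomial.X ^ 2 : Polynomial ℂ) • (X * X).map Polynomial.C, ?_, ?_, fun c => ?_⟩
  · rw [hMe, zero_mul, zero_smul, add_zero]
    simp
  · rw [hMe, one_mul]
  · rw [hMe]
    exact exp_isom hXJ hX3 (c * t)

/-- the group of one family is connected -/
theorem PqU_all (hSOG : S_SOG) {g : Matrix (Fin n) (Fin n) ℂ} (hg : GU n Q g) : PqU n Q g := by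
  by_cases hO : QO n Q
  · have hn : 3 ≤ n := by
      have h1 := hO.two
      obtain ⟨k, hk⟩ := hO.odd
      omega
    have hnD : ¬ QD n Q := by
      intro hD
      obtain ⟨k, hk⟩ := hO.odd
      obtain ⟨m, hm⟩ := hD.even
      omega
    obtain ⟨M, h1, h2, h3⟩ := so_conn hSOG hn (comp_q hO).symm (comp_q hO).det g (hg.2.2 hO) hg.1
    exact ⟨M, h1, h2, fun c => ⟨det_curve (comp_q hO).det h1 h3 c, fun h => absurd h hnD, fun _ => h3 c⟩⟩
  · obtain ⟨M, h1, h2, h3⟩ := Pq_all (n := n) (Q := Q) ⟨hg.1, hg.2.1⟩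
    exact ⟨M, h1, h2, fun c => ⟨(h3 c).1, (h3 c).2, fun h => absurd h hO⟩⟩

end one

end Run7.h309.JP
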