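import Pool.Agent.Run7.h309.JU.Sec

/-!
# Joint hypergeometric families of all types, pulled back along `z = 1 - v ^ M`: the relations are those of the torsor
-/

set_option autoImplicit false
set_option linter.unusedSectionVars false
set_option linter.unusedVariables false

open Filter Topology Matrix

namespace Run7.h309.JP

open Pool.Agent.Y119.HY (Am Jm cm E Hf Hc Yf Gal Rel Ac_nil QD ev evp pt eval_evp map_C_eval map_mul_eval)
open Pool.Agent.Run7.h225.HG
open Run7.h893.HO
open Pool.Agent.Y890.MV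

/-! ### a rational section -/

section one

variable {n : ℕ} {Q : Polynomial ℚ}

/-- the radical in the torsor -/
lemma exp_M {M : ℕ} {v : ℂ} (hv : v ≠ 0) : Complex.exp (M * Complex.log v) = v ^ M := by
  rw [Complex.exp_nat_mul, Complex.exp_log hv]

/-- **a rational section** -/
theorem sec_one (hQ : QG n Q) {M : ℕ} (hM : 0 < M) {e : ℤ} (he : (e : ℚ) = M * Q.coeff (n - 1)) :
    ∃ (B : ℕ) (P : Matrix (Fin n) (Fin n) (Polynomial ℂ)), ∀ v : ℂ, v ≠ 0 →
      (Matrix.of fun a b => (P a b).eval v / v ^ B) ∈ TU n Q (M * Complex.log v) (1 - v ^ M) := by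
  classical
  have hn : 0 < n := by
    have := hQ.two
    omega
  by_cases hO : QO n Q
  · obtain ⟨p, r, hp, hpr⟩ := sqrt_poly n
    -- `M = 2 m`
    obtain ⟨m, hm⟩ : ∃ m : ℕ, M = 2 * m := by
      have h1 := he
      rw [hO.half] at h1
      have h2 : (2 * e : ℤ) = M * n := by
        have h3 : ((2 * e : ℤ) : ℚ) = ((M * n : ℤ) : ℚ) := by
          push_cast
          rw [h1]
          ring
        exact_mod_cast h3
      have h3 : Even ((M : ℤ) * n) := ⟨e, by omega⟩
      rw [Int.even_mul] at h3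
      rcases h3 with h3 | h3
      · have : Even M := by exact_mod_cast h3
        obtain ⟨m, hm⟩ := this
        exact ⟨m, by omega⟩
      · have h4 : Even n := by exact_mod_cast h3
        exact absurd hO.odd (Nat.not_odd_iff_even.2 h4)
    have hmn : e = m * n := by
      have h1 := he
      rw [hO.half, hm] at h1
      have h3 : (e : ℚ) = ((m * n : ℤ) : ℚ) := by
        rw [h1]
        push_cast
        ring
      exact_mod_cast h3
    set d := p.natDegree with hd
    refine ⟨m + M * d, Matrix.of fun a b => ∑ k ∈ Finset.range (d + 1), Polynomial.C (p.coeff k * (N1 n Q ^ k) a b) *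
      (1 - Polynomial.X ^ M) ^ k * Polynomial.X ^ (M * (d - k)), fun v hv => ?_⟩
    have hvM : v ^ M ≠ 0 := pow_ne_zero _ hv
    have hvm : v ^ m ≠ 0 := pow_ne_zero _ hv
    have h1z : (1 : ℂ) - (1 - v ^ M) = v ^ M := by ring
    have hc : (v ^ m)⁻¹ * (v ^ m)⁻¹ * (1 - (1 - v ^ M)) = 1 := by
      rw [h1z, hm, pow_mul']
      field_simp
    obtain ⟨h1, h2⟩ := orth_sec hO hp hpr (z := 1 - v ^ M) (c := (v ^ m)⁻¹) (by rw [h1z]; exact hvM) hc
    have hS : (Matrix.of fun a b => ((Matrix.of fun a b => ∑ k ∈ Finset.range (d + 1),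
        Polynomial.C (p.coeff k * (N1 n Q ^ k) a b) * (1 - Polynomial.X ^ M) ^ k * Polynomial.X ^ (M * (d - k)) :
          Matrix (Fin n) (Fin n) (Polynomial ℂ)) a b).eval v / v ^ (m + M * d)) =
        (v ^ m)⁻¹ • Polynomial.aeval (((1 - v ^ M) / (1 - (1 - v ^ M))) • N1 n Q) p := by
      ext a b
      rw [Matrix.of_apply, Matrix.of_apply, Matrix.smul_apply, aeval_entry, smul_eq_mul, Polynomial.eval_finsetSum,
        Finset.mul_sum, Finset.sum_div]
      refine Finset.sum_congr rfl fun k hk => ?_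
      have hk' : k ≤ d := Nat.lt_succ_iff.1 (Finset.mem_range.1 hk)
      rw [smul_pow, Matrix.smul_apply, smul_eq_mul, h1z]
      simp only [Polynomial.eval_mul, Polynomial.eval_C, Polynomial.eval_pow, Polynomial.eval_sub, Polynomial.eval_one,
        Polynomial.eval_X]
      have h3 : v ^ (m + M * d) = v ^ m * ((v ^ M) ^ k * v ^ (M * (d - k))) := by
        rw [← pow_mul, ← pow_add, ← pow_add]
        congr 1
        have : M * d = M * k + M * (d - k) := by rw [← mul_add]; congr 1; omega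
        omega
      rw [h3, div_pow]
      have h4 : v ^ (M * (d - k)) ≠ 0 := pow_ne_zero _ hv
      have h5 : (v ^ M) ^ k ≠ 0 := pow_ne_zero _ hvM
      field_simp
    rw [hS]
    refine ⟨?_, fun hD => ?_, fun _ => h2⟩
    · rw [h1, exp_v he hv, hmn, _root_.zpow_neg, inv_pow, ← pow_mul, ← zpow_natCast]
      congr 1
    · exfalso
      obtain ⟨k, hk⟩ := hO.odd
      obtain ⟨m, hm⟩ := hD.even
      omega
  · refine ⟨e.natAbs, Matrix.diagonal fun c => if c = ⟨0, hn⟩ then Polynomial.X ^ ((e.natAbs : ℤ) - e).toNat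
      else Polynomial.X ^ e.natAbs, fun v hv => ?_⟩
    have hS : (Matrix.of fun a b => ((Matrix.diagonal fun c => if c = ⟨0, hn⟩ then
        Polynomial.X ^ ((e.natAbs : ℤ) - e).toNat else Polynomial.X ^ e.natAbs :
          Matrix (Fin n) (Fin n) (Polynomial ℂ)) a b).eval v / v ^ e.natAbs) =
        Matrix.diagonal fun c => if c = ⟨0, hn⟩ then v ^ (-e) else 1 := by
      ext a b
      rw [Matrix.of_apply]
      by_cases hab : a = b
      · subst hab
        rw [Matrix.diagonal_apply_eq, Matrix.diagonal_apply_eq]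
        by_cases h : a = ⟨0, hn⟩
        · rw [if_pos h, if_pos h, Polynomial.eval_pow, Polynomial.eval_X, div_eq_iff (pow_ne_zero _ hv), ← zpow_natCast,
            ← zpow_natCast, ← zpow_add₀ hv]
          congr 1
          omega
        · rw [if_neg h, if_neg h, Polynomial.eval_pow, Polynomial.eval_X, div_self (pow_ne_zero _ hv)]
      · rw [Matrix.diagonal_apply_ne _ hab, Matrix.diagonal_apply_ne _ hab, Polynomial.eval_zero, zero_div]
    rw [hS]
    refine ⟨?_, fun hD => ?_, fun h => absurd h hO⟩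
    · rw [exp_v he hv, Matrix.det_diagonal, Finset.prod_ite_eq' Finset.univ, if_pos (Finset.mem_univ _)]
    · have he0 : e = 0 := by
        have h1 := he
        rw [QD_tr hD, mul_zero] at h1
        exact_mod_cast h1
      have h1 : (Matrix.diagonal fun c : Fin n => if c = ⟨0, hn⟩ then v ^ (-e) else (1 : ℂ)) = 1 := by
        rw [he0]
        simp only [neg_zero, zpow_zero, ite_self]
        exact Matrix.diagonal_one
      rw [h1, Matrix.transpose_one, one_mul, mul_one]

end one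

/-! ### one list of families -/

variable {r : ℕ} {n : Fin r → ℕ} {Q : Fin r → Polynomial ℚ} {W : ∀ j, Matrix (Fin (n j)) (Fin (n j)) (PowerSeries ℚ)}

/-- a common denominator of the sections -/
theorem sec_all (hQ : ∀ j, QG (n j) (Q j)) {M : ℕ} (hM : AM n Q M) :
    ∃ (B : ℕ) (P : ∀ j, Matrix (Fin (n j)) (Fin (n j)) (Polynomial ℂ)), ∀ v : ℂ, v ≠ 0 →
      ∀ j, (Matrix.of fun a b => (P j a b).eval v / v ^ B) ∈ TU (n j) (Q j) (M * Complex.log v) (1 - v ^ M) := by
  classical
  choose e he using hM.int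
  choose B P hP using fun j => sec_one (hQ j) hM.pos (he j)
  refine ⟨∑ j, B j, fun j => Matrix.of fun a b => P j a b * Polynomial.X ^ (∑ i, B i - B j), fun v hv j => ?_⟩
  have hle : B j ≤ ∑ i, B i := Finset.single_le_sum (f := B) (fun _ _ => Nat.zero_le _) (Finset.mem_univ j)
  refine (congrArg (· ∈ TU (n j) (Q j) (M * Complex.log v) (1 - v ^ M)) ?_).mp (hP j v hv)
  ext a b
  rw [Matrix.of_apply, Matrix.of_apply]
  show (P j a b).eval v / v ^ B j = (P j a b * Polynomial.X ^ (∑ i, B i - B j)).eval v / v ^ ∑ j, B j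
  rw [Polynomial.eval_mul, Polynomial.eval_pow, Polynomial.eval_X]
  have h1 : v ^ (∑ i, B i) = v ^ (B j) * v ^ (∑ i, B i - B j) := by
    rw [← pow_add]
    congr 1
    omega
  have h2 : v ^ (∑ i, B i - B j) ≠ 0 := pow_ne_zero _ hv
  rw [h1, mul_div_mul_right _ _ h2]

/-- the torsor -/
def GnU (n : Fin r → ℕ) (Q : Fin r → Polynomial ℚ) (M : ℕ) (Ω : ∀ j, Matrix (Fin (n j)) (Fin (n j)) ℂ) (x : Unit → ℂ) :
    Set (Vn n → ℂ) :=
  {Y | ∃ (l : ℂ) (X : ∀ j, Matrix (Fin (n j)) (Fin (n j)) ℂ),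
    (∀ j, X j ∈ TU (n j) (Q j) (M * Complex.log (x ())) (1 - x () ^ M)) ∧ Y = ptn l fun j => X j * Ω j}

section

variable (Ω : ∀ j, Matrix (Fin (n j)) (Fin (n j)) ℂ)

/-- the product of the determinants is the radical -/
lemma prod_detU {M : ℕ} {a : Fin r → ℕ} {B : ℤ} (hB : (B : ℚ) - ∑ j, a j * (Q j).coeff (n j - 1) = 1 / M)
    {z l : ℂ} (hl : Complex.exp l = 1 - z) {X : ∀ j, Matrix (Fin (n j)) (Fin (n j)) ℂ}
    (hX : ∀ j, X j ∈ TU (n j) (Q j) l z) : (∏ j, (X j).det ^ a j) * (1 - z) ^ B = Complex.exp (l / M) :=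
  prod_det hB hl fun j => ⟨(hX j).1, (hX j).2.1⟩

/-- the relations hold on the torsor, real points -/
theorem inv_realU {M : ℕ} (hJ : JU n Q W) (hM : AM n Q M) (p : MvPolynomial (Vn n) (MvPolynomial Unit ℂ))
    (hp : ∀ x ∈ V1 M, evM (gn n Q M Ω) x p = 0) {x : ℝ} (hx : 0 < x) (hx1 : x < 1)
    (X : ∀ j, Matrix (Fin (n j)) (Fin (n j)) ℂ) (hX : ∀ j, X j ∈ TU (n j) (Q j) (Complex.log (1 - (x : ℂ))) x) :
    evX (fun _ => rad M (x : ℂ)) (ptn (Complex.log (x : ℂ)) fun j => X j * Ω j) p = 0 := by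
  classical
  obtain ⟨a, B, hB⟩ := hM.comb
  have hz1 : ∀ x : ℝ, 0 < x → x < 1 → ‖(x : ℂ)‖ < 1 := by
    intro x hx hx1
    rw [Complex.norm_real, Real.norm_of_nonneg hx.le]
    exact hx1
  have hne : ∀ x : ℝ, 0 < x → x < 1 → (1 - (x : ℂ)) ≠ 0 := fun x hx hx1 =>
    Complex.slitPlane_ne_zero (slit_one_sub (hz1 x hx hx1))
  set P' : MvPolynomial (Option (Vn n)) (MvPolynomial (Pool.Agent.Y119.HY.Vr (∑ j, n j)) ℂ) :=
    MvPolynomial.map MvPolynomial.C (Flat p) with hP'
  set D := P'.totalDegree with hD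
  set R := clear D (cnum a B Ω) (cden n B) P' with hR
  have hev : ∀ x : ℝ, 0 < x → x < 1 → ∀ X : ∀ j, Matrix (Fin (n j)) (Fin (n j)) ℂ,
      (∀ j, X j ∈ TU (n j) (Q j) (Complex.log (1 - (x : ℂ))) x) →
      ev R (x : ℂ) (Complex.log x) (blk n ℂ X) = ((1 - (x : ℂ)) ^ (-B).toNat) ^ D *
        evX (fun _ => rad M (x : ℂ)) (ptn (Complex.log (x : ℂ)) fun j => X j * Ω j) p := by
    intro x hx hx1 X hX
    have h1 := clear_eval D (cnum a B Ω) (cden n B) P' le_rfl (pt (x : ℂ) (Complex.log x) (blk n ℂ X)) (by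
      rw [eval_cden]
      exact pow_ne_zero _ (hne x hx hx1))
    rw [frac_val a B Ω (hne x hx hx1), prod_detU hB (Complex.exp_log (hne x hx hx1)) hX, eval_cden] at h1
    refine h1.trans ?_
    congr 1
    rw [hP', evX, MvPolynomial.eval₂_map]
    rw [show ((MvPolynomial.eval (pt (x : ℂ) (Complex.log x) (blk n ℂ X))).comp MvPolynomial.C) = RingHom.id ℂ from
      RingHom.ext fun a => MvPolynomial.eval_C a]
    exact eval_Flat p _ _
  have hrel : R ∈ Rel (YJ n Q) := by
    intro y hy hy1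
    rw [YJ_eq2 hJ, hev y hy hy1 _ fun j => YU_mem (hJ.q j) hy hy1]
    have h1 := hp (fun _ => rad M (y : ℂ)) (rad_mem hM.pos (real_DS hy hy1))
    have h2 : (1 : ℂ) - rad M (y : ℂ) ^ M = (y : ℂ) := by rw [rad_pow hM.pos (hz1 y hy hy1), sub_sub_cancel]
    rw [evM_eq] at h1
    unfold gn at h1
    rw [h2] at h1
    refine mul_eq_zero_of_right _ ?_
    exact h1
  obtain ⟨g, hg, hgX⟩ := tor_all2 pieces hJ hx hx1 (Complex.exp_log (hne x hx hx1)) hX 0
  have h1 := hg _ hrel x hx hx1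
  rw [YJ_eq2 hJ, ← map_mul] at h1
  have h2 : ((fun j => Yf (cm (Am (n j))) (Hc (n j) (Q j)) (x : ℂ)) * g) = X := by
    funext j
    rw [Pi.mul_apply, hgX j, Pool.Agent.Y119.HY.E_zero Ac_nil, mul_one]
  rw [h2, hev x hx hx1 X hX] at h1
  exact (mul_eq_zero.1 h1).resolve_left (pow_ne_zero _ (pow_ne_zero _ (hne x hx hx1)))

/-- the relations hold on the torsor -/
theorem inv_kumU {M : ℕ} (hJ : JU n Q W) (hM : AM n Q M) (p : MvPolynomial (Vn n) (MvPolynomial Unit ℂ))
    (hp : ∀ x ∈ V1 M, evM (gn n Q M Ω) x p = 0) (z : ℂ) (hz : ‖z‖ < 1) (l : ℂ)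
    (X : ∀ j, Matrix (Fin (n j)) (Fin (n j)) ℂ) (hX : ∀ j, X j ∈ TU (n j) (Q j) (Complex.log (1 - z)) z) :
    evX (fun _ => rad M z) (ptn l fun j => X j * Ω j) p = 0 := by
  choose κ hκ hκX using fun j => TU_div (Hf_memU (hJ.q j) hz) (hX j)
  set F : ℂ → Polynomial ℂ := fun w => MvPolynomial.aeval (fun o : Option (Vn n) => o.elim (Polynomial.C (rad M w))
    (ptn Polynomial.X fun j => (Hf (Hc (n j) (Q j)) w * κ j * Ω j).map Polynomial.C)) (Flat p) with hF
  have hFe : ∀ w s, (F w).eval s = evX (fun _ => rad M w) (ptn s fun j => Hf (Hc (n j) (Q j)) w * κ j * Ω j) p := by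
    intro w s
    rw [← eval_Flat]
    have h3 : (Polynomial.aeval s : Polynomial ℂ →ₐ[ℂ] ℂ).comp (MvPolynomial.aeval (fun o : Option (Vn n) =>
        o.elim (Polynomial.C (rad M w)) (ptn Polynomial.X fun j => (Hf (Hc (n j) (Q j)) w * κ j * Ω j).map Polynomial.C))) =
        MvPolynomial.aeval (fun o : Option (Vn n) => o.elim (rad M w)
          (ptn s fun j => Hf (Hc (n j) (Q j)) w * κ j * Ω j)) := by
      refine MvPolynomial.algHom_ext fun o => ?_
      rw [AlgHom.comp_apply, MvPolynomial.aeval_X, MvPolynomial.aeval_X]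
      rcases o with _ | _ | ⟨j, q⟩
      · simp
      · simp [ptn]
      · simp only [ptn, Option.elim_some, Matrix.map_apply, Polynomial.coe_aeval_eq_eval, Polynomial.eval_C]
    have h4 := DFunLike.congr_fun h3 (Flat p)
    exact h4
  have h1 : ∀ w ∈ Metric.ball (0 : ℂ) 1, F w = 0 := by
    refine Pool.Agent.Y119.HY.PA.log_zero (f := F) ?_ fun y hy hy1 => ?_
    · refine Pool.Agent.Y119.HY.PA.aeval (fun o => ?_) _
      rcases o with _ | _ | ⟨j, q⟩
      · exact Pool.Agent.Y119.HY.PA.ofFun (rad_an M)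
      · exact Pool.Agent.Y119.HY.PA.const _
      · simp only [ptn, Option.elim_some, Matrix.map_apply]
        refine Pool.Agent.Y119.HY.PA.ofFun ?_
        simp only [Matrix.mul_apply]
        intro w hw
        refine Finset.analyticAt_fun_sum _ fun c _ => AnalyticAt.mul (Finset.analyticAt_fun_sum _ fun d _ => ?_) analyticAt_const
        exact (Pool.Agent.Y119.HY.Hf_an (sol_c_g (hJ.q j)) Ac_nil _ _ w hw).mul analyticAt_const
    · rw [Complex.ofReal_log hy.le, hFe]
      refine inv_realU Ω hJ hM p hp hy hy1 (fun j => Hf (Hc (n j) (Q j)) (y : ℂ) * κ j) fun j => ?_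
      refine TU_mul (Hf_memU (hJ.q j) ?_) (hκ j)
      rw [Complex.norm_real, Real.norm_of_nonneg hy.le]
      exact hy1
  have h2 := congrArg (Polynomial.eval l) (h1 z (by rw [Metric.mem_ball, dist_zero_right]; exact hz))
  rw [hFe, Polynomial.eval_zero] at h2
  refine (congrArg (fun X => evX (fun _ => rad M z) (ptn l X) p) ?_).trans h2
  funext j
  rw [← hκX j]

/-- **One list of families.** -/
theorem torM_kumU {M : ℕ} (hJ : JU n Q W) (hM : AM n Q M) : TorM (V1 M) (gn n Q M Ω) (GnU n Q M Ω) := by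
  classical
  have hlog : ∀ x ∈ V1 M, (M : ℂ) * Complex.log (x ()) = Complex.log (1 - (1 - x () ^ M)) := by
    intro x hx
    rw [sub_sub_cancel, log_pow_M hM.pos (Complex.slitPlane_ne_zero hx.2.1) hx.2.2]
  have hself : ∀ x ∈ V1 M, ∀ j, Yf (cm (Am (n j))) (Hc (n j) (Q j)) (1 - x () ^ M) ∈
      TU (n j) (Q j) (M * Complex.log (x ())) (1 - x () ^ M) := by
    intro x hx j
    rw [hlog x hx]
    exact TU_mul (Hf_memU (hJ.q j) hx.1.1) (E_GU (hJ.q j) _)
  refine ⟨fun x hx => ?_, fun p hp x hx Y hY => ?_, fun x hx Y hY => ?_, ?_⟩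
  · exact ⟨Complex.log (1 - x () ^ M), fun j => Yf (cm (Am (n j))) (Hc (n j) (Q j)) (1 - x () ^ M), hself x hx, rfl⟩
  · obtain ⟨l, X, hX, rfl⟩ := hY
    have h1 := inv_kumU Ω hJ hM p hp (1 - x () ^ M) hx.1.1 l X (fun j => by
      rw [← hlog x hx]
      exact hX j)
    rw [rad_of hM.pos hx] at h1
    exact h1
  · obtain ⟨l, X, hX, rfl⟩ := hY
    choose g hg hgX using fun j => TU_div (hself x hx j) (hX j)
    choose N hN0 hN1 hN using fun j => PqU_all pieces.SOG (hg j)
    set Y0 : ∀ j, Matrix (Fin (n j)) (Fin (n j)) ℂ := fun j => Yf (cm (Am (n j))) (Hc (n j) (Q j)) (1 - x () ^ M) with hY0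
    have hev : ∀ (t : ℂ) (j : Fin r) (a b : Fin (n j)),
        ((((Y0 j).map Polynomial.C * N j * (Ω j).map Polynomial.C) : Matrix (Fin (n j)) (Fin (n j)) (Polynomial ℂ)) a b).eval t =
          (Y0 j * (N j).map (Polynomial.eval t) * Ω j) a b := by
      intro t j a b
      have h1 : (((Y0 j).map Polynomial.C * N j * (Ω j).map Polynomial.C) : Matrix (Fin (n j)) (Fin (n j))
          (Polynomial ℂ)).map (Polynomial.eval t) = Y0 j * (N j).map (Polynomial.eval t) * Ω j := by
        rw [map_mul_eval, map_mul_eval, map_C_eval, map_C_eval]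
      exact congrFun (congrFun h1 a) b
    refine ⟨ptn (Polynomial.C (Complex.log (1 - x () ^ M)) + Polynomial.X * Polynomial.C (l - Complex.log (1 - x () ^ M)))
      (fun j => (Y0 j).map Polynomial.C * N j * (Ω j).map Polynomial.C), ?_, ?_, fun t => ?_⟩
    · rintro (_ | ⟨j, a, b⟩)
      · simp [ptn, gn]
      · show ((((Y0 j).map Polynomial.C * N j * (Ω j).map Polynomial.C) : Matrix (Fin (n j)) (Fin (n j)) (Polynomial ℂ)) a b).eval 0 = _
        rw [hev, hN0, mul_one]
        rfl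
    · rintro (_ | ⟨j, a, b⟩)
      · simp [ptn]
      · show ((((Y0 j).map Polynomial.C * N j * (Ω j).map Polynomial.C) : Matrix (Fin (n j)) (Fin (n j)) (Polynomial ℂ)) a b).eval 1 = _
        rw [hev, hN1, hgX]
        rfl
    · refine ⟨(Polynomial.C (Complex.log (1 - x () ^ M)) + Polynomial.X * Polynomial.C (l - Complex.log (1 - x () ^ M))).eval t,
        fun j => Y0 j * (N j).map (Polynomial.eval t), fun j => TU_mul (hself x hx j) (hN j t), ?_⟩
      funext v
      rcases v with _ | ⟨j, a, b⟩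
      · rfl
      · exact hev t j a b
  · obtain ⟨B, P, hP⟩ := sec_all hJ.q hM
    refine ⟨MvPolynomial.X () ^ B, pow_ne_zero _ (MvPolynomial.X_ne_zero _), fun x0 hx0 hc Y0 hY0 => ?_⟩
    obtain ⟨l, X0, hX0, rfl⟩ := hY0
    have hv0 : x0 () ≠ 0 := Complex.slitPlane_ne_zero hx0.2.1
    choose g hg hgX using fun j => TU_div (hP (x0 ()) hv0 j) (hX0 j)
    -- the polynomials of the section
    set q : Polynomial ℂ → MvPolynomial Unit ℂ := fun p => Polynomial.aeval (MvPolynomial.X ()) p with hq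
    have hqe : ∀ (p : Polynomial ℂ) (x : Unit → ℂ), MvPolynomial.eval x (q p) = p.eval (x ()) := by
      intro p x
      have h1 := Polynomial.aeval_algHom_apply (MvPolynomial.aeval x : MvPolynomial Unit ℂ →ₐ[ℂ] ℂ) (MvPolynomial.X ()) p
      rw [MvPolynomial.aeval_X, Polynomial.coe_aeval_eq_eval] at h1
      exact h1.symm
    refine ⟨fun s => s.elim (MvPolynomial.C l * MvPolynomial.X () ^ B) fun s =>
      ∑ c, q (P s.1 s.2.1 c) * MvPolynomial.C ((g s.1 * Ω s.1) c s.2.2), ?_⟩
    have hval : ∀ x ∈ V1 M, ∀ s : Vn n, MvPolynomial.eval x (s.elim (MvPolynomial.C l * MvPolynomial.X () ^ B) fun s =>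
        ∑ c, q (P s.1 s.2.1 c) * MvPolynomial.C ((g s.1 * Ω s.1) c s.2.2)) / MvPolynomial.eval x (MvPolynomial.X () ^ B) =
          ptn l (fun j => (Matrix.of fun a b => (P j a b).eval (x ()) / x () ^ B) * g j * Ω j) s := by
      intro x hx s
      have hv : x () ≠ 0 := Complex.slitPlane_ne_zero hx.2.1
      have hvB : x () ^ B ≠ 0 := pow_ne_zero _ hv
      rw [map_pow, MvPolynomial.eval_X, div_eq_iff hvB]
      rcases s with _ | ⟨j, a, b⟩
      · simp [ptn]
      · simp only [ptn, Option.elim_some, map_sum, map_mul, hqe, MvPolynomial.eval_C]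
        rw [Matrix.mul_assoc, Matrix.mul_apply, Finset.sum_mul]
        refine Finset.sum_congr rfl fun c _ => ?_
        rw [Matrix.of_apply]
        field_simp
    refine ⟨fun x hx _ => ?_, fun s => ?_⟩
    · have hv : x () ≠ 0 := Complex.slitPlane_ne_zero hx.2.1
      refine ⟨l, fun j => (Matrix.of fun a b => (P j a b).eval (x ()) / x () ^ B) * g j,
        fun j => TU_mul (hP (x ()) hv j) (hg j), ?_⟩
      funext s
      exact hval x hx s
    · rw [hval x0 hx0 s]
      have h1 : (fun j => (Matrix.of fun a b => (P j a b).eval (x0 ()) / x0 () ^ B) * g j * Ω j) = fun j => X0 j * Ω j := by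
        funext j
        rw [hgX]
      rw [h1]

/-- analyticity -/
theorem gn_anU {M : ℕ} (hJ : JU n Q W) (v : Vn n) : AnalyticOnNhd ℂ (gn n Q M Ω v) (V1 M) := by
  have key : ∀ F : ℂ → ℂ, AnalyticOnNhd ℂ F DS → AnalyticOnNhd ℂ (fun x : Unit → ℂ => F (1 - x () ^ M)) (V1 M) := by
    intro F hF x hx
    let L : (Unit → ℂ) →L[ℂ] ℂ := ContinuousLinearMap.proj (R := ℂ) (φ := fun _ : Unit => ℂ) ()
    exact AnalyticAt.comp (g := F) (f := fun x : Unit → ℂ => 1 - x () ^ M) (hF _ hx.1)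
      (analyticAt_const.sub ((L.analyticAt x).pow M))
  have hlog : AnalyticOnNhd ℂ Complex.log DS := fun z hz => analyticAt_clog hz.2
  rcases v with _ | ⟨j, a, b⟩
  · exact key _ hlog
  · refine key (fun z => (Yf (cm (Am (n j))) (Hc (n j) (Q j)) z * Ω j) a b) ?_
    intro z hz
    have hb : z ∈ Metric.ball (0 : ℂ) 1 := by
      rw [Metric.mem_ball, dist_zero_right]
      exact hz.1
    have hE : ∀ c d, AnalyticAt ℂ (fun z => E (cm (Am (n j))) (Complex.log z) c d) z := by
      intro c d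
      unfold E
      simp only [Matrix.sum_apply, Matrix.smul_apply, smul_eq_mul]
      refine Finset.analyticAt_fun_sum _ fun i _ => ?_
      exact (((hlog z hz).pow i).div_const).mul analyticAt_const
    simp only [Matrix.mul_apply, Yf]
    refine Finset.analyticAt_fun_sum _ fun c _ => AnalyticAt.mul (Finset.analyticAt_fun_sum _ fun d _ => ?_) analyticAt_const
    exact (Pool.Agent.Y119.HY.Hf_an (sol_c_g (hJ.q j)) Ac_nil _ _ z hb).mul (hE _ _)

end

end Run7.h309.JP
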