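import Pool.Agent.Run7.h309.JU.GU
import Pool.Agent.Run7.h309.JP.Kum

/-!
# Rational sections of the torsors over the `v`-line, `z = 1 - v ^ M`
-/

set_option autoImplicit false
set_option linter.unusedSectionVars false
set_option linter.unusedVariables false

open Matrix

namespace Run7.h309.JP

open Pool.Agent.Y119.HY (Am Jm cm E Hf Hc Yf Gal Rel Ac_nil QD)
open Pool.Agent.Run7.h225.HG
open Run7.h893.HO

/-! ### the square root of `1 / (1 - t)` -/

lemma sqrt_poly (m : ℕ) : ∃ p r : Polynomial ℂ, p.coeff 0 = 1 ∧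
    p * p * (1 - Polynomial.X) = 1 + Polynomial.X ^ (m + 1) * r := by
  induction m with
  | zero => exact ⟨1, -1, by simp, by ring⟩
  | succ m ih =>
    obtain ⟨p, r, hp, h⟩ := ih
    set a : ℂ := -(r.coeff 0) / 2 with ha
    set q := r + 2 * Polynomial.C a * p * (1 - Polynomial.X) +
      Polynomial.C a * Polynomial.C a * Polynomial.X ^ (m + 1) * (1 - Polynomial.X) with hq
    have hq0 : q.coeff 0 = 0 := by
      rw [Polynomial.coeff_zero_eq_eval_zero, hq]
      simp only [Polynomial.eval_add, Polynomial.eval_mul, Polynomial.eval_sub, Polynomial.eval_one, Polynomial.eval_X,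
        Polynomial.eval_C, Polynomial.eval_pow, Polynomial.eval_ofNat]
      rw [← Polynomial.coeff_zero_eq_eval_zero, ← Polynomial.coeff_zero_eq_eval_zero, hp, ha]
      simp
      ring
    obtain ⟨s, hs⟩ := Polynomial.X_dvd_iff.2 hq0
    refine ⟨p + Polynomial.C a * Polynomial.X ^ (m + 1), s, ?_, ?_⟩
    · rw [Polynomial.coeff_add, hp, Polynomial.coeff_C_mul, Polynomial.coeff_X_pow, if_neg (by omega), mul_zero, add_zero]
    · have h2 : (p + Polynomial.C a * Polynomial.X ^ (m + 1)) * (p + Polynomial.C a * Polynomial.X ^ (m + 1)) *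
          (1 - Polynomial.X) = p * p * (1 - Polynomial.X) + Polynomial.X ^ (m + 1) * (q - r) := by
        rw [hq]
        ring
      rw [h2, h]
      have h3 : (1 : Polynomial ℂ) + Polynomial.X ^ (m + 1) * r + Polynomial.X ^ (m + 1) * (q - r) =
          1 + Polynomial.X ^ (m + 1) * q := by ring
      rw [h3, hs]
      ring

/-! ### strictly lower triangular matrices -/

section tri

variable {n : ℕ} {N J : Matrix (Fin n) (Fin n) ℂ}

lemma tri_pow (hN : ∀ i j : Fin n, (i : ℕ) ≤ j → N i j = 0) (k : ℕ) : ∀ i j : Fin n, (i : ℕ) < j + k → (N ^ k) i j = 0 := by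
  induction k with
  | zero =>
    intro i j hij
    rw [pow_zero, Matrix.one_apply, if_neg]
    rintro rfl
    omega
  | succ k ih =>
    intro i j hij
    rw [pow_succ', Matrix.mul_apply]
    refine Finset.sum_eq_zero fun l _ => ?_
    by_cases h : (i : ℕ) ≤ l
    · rw [hN i l h, zero_mul]
    · rw [ih l j (by omega), mul_zero]

lemma tri_nil (hN : ∀ i j : Fin n, (i : ℕ) ≤ j → N i j = 0) : N ^ n = 0 := by
  ext i j
  exact tri_pow hN n i j (by have := i.2; omega)

lemma aeval_entry (p : Polynomial ℂ) (i j : Fin n) :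
    (Polynomial.aeval N p) i j = ∑ k ∈ Finset.range (p.natDegree + 1), p.coeff k * (N ^ k) i j := by
  rw [Polynomial.aeval_eq_sum_range, Matrix.sum_apply]
  simp only [Matrix.smul_apply, smul_eq_mul]

lemma tri_det (hN : ∀ i j : Fin n, (i : ℕ) ≤ j → N i j = 0) {p : Polynomial ℂ} (hp : p.coeff 0 = 1) :
    (Polynomial.aeval N p).det = 1 := by
  rw [Matrix.det_of_isLowerTriangular]
  · refine Finset.prod_eq_one fun i _ => ?_
    rw [aeval_entry, Finset.sum_eq_single 0]
    · rw [hp, pow_zero, Matrix.one_apply_eq, mul_one]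
    · intro k _ hk
      rw [tri_pow hN k i i (by omega), mul_zero]
    · intro h
      exact absurd (Finset.mem_range.2 (by omega)) h
  · intro i j hij
    have hij' : (i : ℕ) < j := hij
    rw [aeval_entry]
    refine Finset.sum_eq_zero fun k _ => ?_
    rw [tri_pow hN k i j (by omega), mul_zero]

lemma aeval_adj (hJN : J * N = N.transpose * J) (p : Polynomial ℂ) :
    J * Polynomial.aeval N p = (Polynomial.aeval N p).transpose * J := by
  have h1 : ∀ k : ℕ, J * N ^ k = (N ^ k).transpose * J := by
    intro k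
    induction k with
    | zero => simp
    | succ k ih =>
      rw [pow_succ, ← Matrix.mul_assoc, ih, Matrix.mul_assoc, hJN, ← Matrix.mul_assoc, ← Matrix.transpose_mul, ← pow_succ',
        pow_succ]
  rw [Polynomial.aeval_eq_sum_range, Finset.mul_sum, Matrix.transpose_sum, Finset.sum_mul]
  refine Finset.sum_congr rfl fun k _ => ?_
  rw [Matrix.mul_smul, h1, Matrix.transpose_smul, Matrix.smul_mul]

end tri

/-! ### the orthogonal form -/

section orth

variable {n : ℕ} {Q : Polynomial ℚ}

lemma kk_top (hQ : QO n Q) : ∀ d : ℕ, d ≤ n - 1 → ∀ i : ℕ,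
    (n ≤ i + (n - 1 - d) → kk Q i (n - 1 - d) = 0) ∧ (i + (n - 1 - d) + 1 = n → kk Q i (n - 1 - d) = (-1) ^ i) := by
  have hn := hQ.two
  intro d
  induction d with
  | zero =>
    intro _ i
    rw [Nat.sub_zero, kk_last hQ]
    refine ⟨fun h => if_neg (by omega), fun h => ?_⟩
    have h1 : i = 0 := by omega
    rw [if_pos h1, h1, pow_zero]
  | succ d ih =>
    intro hd i
    have ih := ih (by omega)
    set j := n - 1 - d with hj
    have hj1 : n - 1 - (d + 1) = j - 1 := by omega
    have hj0 : j ≠ 0 := by omega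
    rw [hj1]
    have h1 := kk_rel hQ i j
    rw [if_neg hj0] at h1
    refine ⟨fun h => ?_, fun h => ?_⟩
    · have hi : i ≠ 0 := by omega
      rw [if_neg hi, (ih (i - 1)).1 (by omega), (ih i).1 (by omega)] at h1
      unfold rr at h1
      rw [if_neg hj0, if_neg hi] at h1
      linear_combination h1
    · have hi : i ≠ 0 := by omega
      rw [if_neg hi, (ih (i - 1)).2 (by omega), (ih i).1 (by omega)] at h1
      unfold rr at h1
      rw [if_neg hj0, if_neg hi] at h1
      obtain ⟨i', rfl⟩ := Nat.exists_eq_succ_of_ne_zero hi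
      rw [Nat.succ_eq_add_one, Nat.add_sub_cancel] at h1
      rw [Nat.succ_eq_add_one, pow_succ]
      linear_combination h1

lemma kk_top' (hQ : QO n Q) {i j : ℕ} (hj : j < n) : (n ≤ i + j → kk Q i j = 0) ∧ (i + j + 1 = n → kk Q i j = (-1) ^ i) := by
  have h := kk_top hQ (n - 1 - j) (by omega) i
  have h1 : n - 1 - (n - 1 - j) = j := by omega
  rwa [h1] at h

/-- the nilpotent matrix -/
noncomputable def N1 (n : ℕ) (Q : Polynomial ℚ) : Matrix (Fin n) (Fin n) ℂ := cm (J0m n) * (cm (J1m n Q) - cm (J0m n))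

lemma J0_sq (hn : Odd n) : cm (J0m n) * cm (J0m n) = 1 := by
  rw [← Pool.Agent.Y119.HY.cm_mul]
  have h : J0m n * J0m n = 1 := by
    ext i k
    rw [Matrix.mul_apply]
    unfold J0m
    simp only [Matrix.of_apply]
    rw [Finset.sum_eq_single (⟨n - 1 - i, by have := i.2; omega⟩ : Fin n)]
    · rw [if_pos (by simp only; have := i.2; omega), Matrix.one_apply]
      by_cases h : i = k
      · subst h
        rw [if_pos (by simp only; have := i.2; omega), if_pos rfl, ← pow_add]
        have h1 : (i : ℕ) + (n - 1 - i) = n - 1 := by have := i.2; omega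
        simp only
        rw [h1]
        obtain ⟨m, hm⟩ := hn
        rw [hm, Nat.add_sub_cancel, pow_mul]
        norm_num
      · rw [if_neg h, if_neg, mul_zero]
        simp only
        intro h1
        exact h (Fin.ext (by have := i.2; omega))
    · intro j _ hj
      rw [if_neg, zero_mul]
      intro h1
      exact hj (Fin.ext (by simp only; omega))
    · intro h
      exact absurd (Finset.mem_univ _) h
  rw [h]
  ext i j
  rw [Pool.Agent.Y119.HY.cm_apply, Matrix.one_apply, Matrix.one_apply]
  split_ifs <;> simp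

lemma J0_N1 (hn : Odd n) : cm (J0m n) * N1 n Q = cm (J1m n Q) - cm (J0m n) := by
  unfold N1
  rw [← Matrix.mul_assoc, J0_sq hn, one_mul]

lemma J1_symm (hQ : QO n Q) : (cm (J1m n Q)).transpose = cm (J1m n Q) := by
  rw [← Pool.Agent.Y119.HY.cm_transpose]
  congr 1
  ext i j
  unfold J1m
  rw [Matrix.transpose_apply, Matrix.of_apply, Matrix.of_apply, kk_symm hQ]

lemma J0_symm (hQ : QO n Q) : (cm (J0m n)).transpose = cm (J0m n) := by
  rw [← Pool.Agent.Y119.HY.cm_transpose, J0m_symm hQ.odd]

lemma N1_adj (hQ : QO n Q) : cm (J0m n) * N1 n Q = (N1 n Q).transpose * cm (J0m n) := by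
  have h1 : (cm (J0m n) * N1 n Q).transpose = cm (J0m n) * N1 n Q := by
    rw [J0_N1 hQ.odd, Matrix.transpose_sub, J1_symm hQ, J0_symm hQ]
  rw [← h1, Matrix.transpose_mul, J0_symm hQ]

lemma N1_tri (hQ : QO n Q) (i j : Fin n) (hij : (i : ℕ) ≤ j) : N1 n Q i j = 0 := by
  unfold N1
  rw [Matrix.mul_apply]
  refine Finset.sum_eq_zero fun l _ => ?_
  rw [Matrix.sub_apply, Pool.Agent.Y119.HY.cm_apply, Pool.Agent.Y119.HY.cm_apply, Pool.Agent.Y119.HY.cm_apply]
  unfold J0m J1m
  rw [Matrix.of_apply, Matrix.of_apply, Matrix.of_apply]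
  by_cases h : (i : ℕ) + l + 1 = n
  · rcases Nat.lt_or_ge ((l : ℕ) + j + 1) (n + 1) with h1 | h1
    · have h2 : (l : ℕ) + j + 1 = n := by omega
      rw [(kk_top' hQ j.2).2 h2, if_pos h2, sub_self, mul_zero]
    · rw [(kk_top' hQ j.2).1 (by omega), if_neg (show ¬ ((l : ℕ) + j + 1 = n) by omega), Rat.cast_zero, sub_self, mul_zero]
  · rw [if_neg h, Rat.cast_zero, zero_mul]

lemma smul_tri {N : Matrix (Fin n) (Fin n) ℂ} (hN : ∀ i j : Fin n, (i : ℕ) ≤ j → N i j = 0) (u : ℂ) :
    ∀ i j : Fin n, (i : ℕ) ≤ j → (u • N) i j = 0 := by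
  intro i j hij
  rw [Matrix.smul_apply, hN i j hij, smul_zero]

/-- an isometry of `J0` with the form at `z` -/
lemma orth_sec (hQ : QO n Q) {p r : Polynomial ℂ} (hp : p.coeff 0 = 1)
    (h : p * p * (1 - Polynomial.X) = 1 + Polynomial.X ^ (n + 1) * r) {z c : ℂ} (hz : 1 - z ≠ 0) (hc : c * c * (1 - z) = 1) :
    (c • Polynomial.aeval ((z / (1 - z)) • N1 n Q) p).det = c ^ n ∧
    (c • Polynomial.aeval ((z / (1 - z)) • N1 n Q) p).transpose * Bz (cm (J0m n)) (cm (J1m n Q)) z *
      (c • Polynomial.aeval ((z / (1 - z)) • N1 n Q) p) = cm (J0m n) := by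
  set N := (z / (1 - z)) • N1 n Q with hN
  have htri := smul_tri (N1_tri hQ) (z / (1 - z))
  rw [← hN] at htri
  constructor
  · rw [Matrix.det_smul, tri_det htri hp, mul_one, Fintype.card_fin]
  · have hJN : cm (J0m n) * N = N.transpose * cm (J0m n) := by
      rw [hN, Matrix.mul_smul, N1_adj hQ, Matrix.transpose_smul, Matrix.smul_mul]
    have hB : Bz (cm (J0m n)) (cm (J1m n Q)) z = (1 - z) • (cm (J0m n) * (1 - N)) := by
      unfold Bz
      rw [mul_sub, mul_one, hN, Matrix.mul_smul, J0_N1 hQ.odd]
      ext i j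
      simp only [Matrix.sub_apply, Matrix.smul_apply, smul_eq_mul]
      field_simp
      ring
    have hpp : (1 - N) * (Polynomial.aeval N p) * Polynomial.aeval N p = 1 := by
      have h1 := congrArg (Polynomial.aeval N) h
      rw [map_mul, map_mul, map_sub, map_one, Polynomial.aeval_X, map_add, map_mul, map_pow, map_one, Polynomial.aeval_X] at h1
      have h2 : N ^ (n + 1) = 0 := by rw [pow_succ, tri_nil htri, zero_mul]
      rw [h2, zero_mul, add_zero] at h1
      have hcom : Commute (Polynomial.aeval N p) N := by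
        have := Polynomial.aeval_X (R := ℂ) N
        conv_rhs => rw [← this]
        exact Commute.map (Polynomial.commute_X p).symm (Polynomial.aeval N).toRingHom
      have hcom2 : Commute (Polynomial.aeval N p * Polynomial.aeval N p) (1 - N) :=
        ((Commute.one_right _).sub_right (hcom.mul_left hcom))
      rw [mul_assoc, ← hcom2.eq]
      exact h1
    rw [hB, Matrix.transpose_smul]
    simp only [Matrix.smul_mul, Matrix.mul_smul, smul_smul]
    have h3 : (Polynomial.aeval N p).transpose * (cm (J0m n) * (1 - N)) * Polynomial.aeval N p = cm (J0m n) := by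
      have hcom : Commute (Polynomial.aeval N p) (1 - N) := by
        have hcom : Commute (Polynomial.aeval N p) N := by
          have := Polynomial.aeval_X (R := ℂ) N
          conv_rhs => rw [← this]
          exact Commute.map (Polynomial.commute_X p).symm (Polynomial.aeval N).toRingHom
        exact (Commute.one_right _).sub_right hcom
      calc (Polynomial.aeval N p).transpose * (cm (J0m n) * (1 - N)) * Polynomial.aeval N p =
            ((Polynomial.aeval N p).transpose * cm (J0m n)) * (1 - N) * Polynomial.aeval N p := by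
            simp only [Matrix.mul_assoc]
        _ = cm (J0m n) * (Polynomial.aeval N p * (1 - N)) * Polynomial.aeval N p := by
            rw [← aeval_adj hJN]
            simp only [Matrix.mul_assoc]
        _ = cm (J0m n) * ((1 - N) * Polynomial.aeval N p * Polynomial.aeval N p) := by
            rw [hcom.eq]
            simp only [Matrix.mul_assoc]
        _ = cm (J0m n) := by rw [hpp, mul_one]
    rw [h3]
    rw [show c * ((1 - z) * c) = 1 by linear_combination hc]
    simp

end orth

end Run7.h309.JP
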